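import Pool.Agent.Helper65.BQ.St

set_option autoImplicit false

/-!
# Project BQ, module CO1: certified sets are big
-/

open Set Topology TopologicalSpace

namespace Pool.Agent.Helper2.BQ

open Pool.Agent.Helper9.SID Pool.Agent.Helper65.BQ

section

variable {K : Type} [TopologicalSpace K]

/-- the level set of `g` at `1 / 2` is a partition -/
theorem par_level (g : K → ℝ) (hg : Continuous g) : Par g ({x | g x < 1 / 2} ∪ {x | 1 / 2 < g x})ᶜ := by
  refine IsPartition.of_open (isOpen_lt hg continuous_const) (isOpen_lt continuous_const hg) ?_ ?_ ?_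
  · rw [Set.disjoint_left]
    intro x h1 h2
    have h1' : g x < 1 / 2 := h1
    have h2' : 1 / 2 < g x := h2
    linarith
  · intro x hx
    have h1 : g x ≤ 0 := hx
    show g x < 1 / 2
    linarith
  · intro x hx
    have h1 : 1 ≤ g x := hx
    show 1 / 2 < g x
    linarith

theorem isOpen_cU (O : ℕ → Set K) (hO : Base O) (a : ℕ → Bool) : IsOpen (cU O a) := by
  have h : cU O a = ⋃ j ∈ {j | a j = true}, O j := by
    ext x
    simp only [cU, mem_iUnion, exists_prop]
    rfl
  rw [h]
  exact isOpen_biUnion fun j _ => hO.op j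

end

theorem pCO1 (hCPT : StCPT) : StCO1 := by
  classical
  intro K _ _ _ f hf O hO c hc
  obtain ⟨h1, h2⟩ := hc
  choose κ hκ using h1
  have hcl : IsClosed (CT O c) := (isOpen_cU O hO _).isClosed_compl
  refine ⟨hcl, κ, (hCPT K f κ).1 _ hcl fun n => ?_⟩
  intro L hL
  let l : List ℕ := (List.range n).map κ
  have hlen : l.length = n := by simp [l]
  have hget : ∀ i < n, l.getD i 0 = κ i := by
    intro i hi
    simp [l, List.getD, hi]
  have h3 := h2 l (fun i hi => by
    rw [hlen] at hi
    rw [hget i hi]
    exact hκ i)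
  rw [hlen] at h3
  let L' : ℕ → Set K := fun i => if i < n then L i else
    ({x | f (l.getD i 0) x < 1 / 2} ∪ {x | 1 / 2 < f (l.getD i 0) x})ᶜ
  have hL' : ∀ i, Par (f (l.getD i 0)) (L' i) := by
    intro i
    by_cases hi : i < n
    · simp only [L', if_pos hi, hget i hi]
      exact hL i
    · simp only [L', if_neg hi]
      exact par_level _ (hf _)
  obtain ⟨x, hx1, hx2⟩ := h3 L' hL'
  refine ⟨x, hx1, ?_⟩
  simp only [mem_iInter, Finset.mem_range] at hx2 ⊢
  intro i hi
  have := hx2 i hi
  simp only [L', if_pos hi] at this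
  exact this

end Pool.Agent.Helper2.BQ
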