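import Pool.Agent.Helper65.BQ.St

/-! Project BQ, module EXT (helper2): extension of partitions from closed sets. -/

set_option autoImplicit false

open Set Topology TopologicalSpace

namespace Pool.Agent.Helper2.BQ

open Pool.Agent.Helper9.SID Pool.Agent.Helper65.BQ

/-- one half of the separation -/
private theorem half {K : Type} [TopologicalSpace K] (Z A B U V : Set K)
    (hZ : IsClosed Z) (hA : IsClosed A) (hd : Disjoint A B) (hV : IsOpen V)
    (hUV : Z ∩ U ∩ V = ∅) (hZA : Z ∩ A ⊆ U) (hZB : Z ∩ B ⊆ V) :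
    Disjoint (closure (U ∩ Z ∪ A)) (V ∩ Z ∪ B) := by
  have h0 : ∀ x, x ∈ Z → x ∈ U → x ∈ V → False := by
    intro x h1 h2 h3
    have : x ∈ Z ∩ U ∩ V := ⟨⟨h1, h2⟩, h3⟩
    rw [hUV] at this
    exact this
  rw [closure_union, hA.closure_eq, Set.disjoint_left]
  have hcl : ∀ x, x ∈ closure (U ∩ Z) → x ∈ Z ∧ x ∉ V := by
    intro x hx
    have h1 : x ∈ Z := by
      have := closure_mono (inter_subset_right : U ∩ Z ⊆ Z) hx
      rwa [hZ.closure_eq] at this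
    refine ⟨h1, fun h2 => ?_⟩
    obtain ⟨y, hy1, hy2⟩ := mem_closure_iff.mp hx V hV h2
    exact h0 y hy2.2 hy2.1 hy1
  rintro x (hx | hx) (h2 | h2)
  · exact (hcl x hx).2 h2.1
  · exact (hcl x hx).2 (hZB ⟨(hcl x hx).1, h2⟩)
  · exact h0 x h2.2 (hZA ⟨h2.2, hx⟩) h2.1
  · exact Set.disjoint_left.mp hd hx h2

theorem pEXT : StEXT := by
  intro K _ _ Z A B U V hZ hA hB hd hU hV hUV hZA hZB
  have h1 : Disjoint (closure (U ∩ Z ∪ A)) (V ∩ Z ∪ B) :=
    half Z A B U V hZ hA hd hV hUV hZA hZB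
  have h2 : Disjoint (U ∩ Z ∪ A) (closure (V ∩ Z ∪ B)) := by
    have hVU : Z ∩ V ∩ U = ∅ := by
      rw [inter_assoc, inter_comm V U, ← inter_assoc]; exact hUV
    exact (half Z B A V U hZ hB hd.symm hU hVU hZB hZA).symm
  letI := metrizableSpaceMetric K
  have h3 := completely_normal h1 h2
  rw [← separatedNhds_iff_disjoint] at h3
  obtain ⟨G, H, hG, hH, hSG, hSH, hGH⟩ := h3
  refine ⟨(G ∪ H)ᶜ, IsPartition.of_open hG hH hGH (fun x hx => hSG (Or.inr hx))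
    (fun x hx => hSH (Or.inr hx)), fun z hz hzL => ⟨fun h => ?_, fun h => ?_⟩⟩
  · exact hzL (Or.inl (hSG (Or.inl ⟨h, hz⟩)))
  · exact hzL (Or.inr (hSH (Or.inl ⟨h, hz⟩)))

end Pool.Agent.Helper2.BQ
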