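import Pool.Agent.Helper65.BQ.St

/-! Project BQ, module FAM (helper2). -/

set_option autoImplicit false

open Set Topology TopologicalSpace

namespace Pool.Agent.Helper2.BQ

open Pool.Agent.Helper9.SID Pool.Agent.Helper65.BQ

theorem pFAM : StFAM := by
  intro K _ _ _
  letI := metrizableSpaceMetric K
  refine ⟨⟨fun k => denseSeq C(K, ℝ) k, ⟨fun k => (denseSeq C(K, ℝ) k).continuous, ?_⟩⟩, ?_⟩
  · intro A B hA hB hd
    obtain ⟨g, hg0, hg1, -⟩ := exists_continuous_zero_one_of_isClosed hA hB hd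
    let h : C(K, ℝ) := ⟨fun x => 3 * g x - 1, by fun_prop⟩
    obtain ⟨k, hk⟩ := (denseRange_denseSeq C(K, ℝ)).exists_dist_lt h
      (show (0 : ℝ) < 1 / 2 by norm_num)
    refine ⟨k, fun x hx => ?_, fun x hx => ?_⟩
    · have h1 : dist (h x) (denseSeq C(K, ℝ) k x) < 1 / 2 :=
        (ContinuousMap.dist_apply_le_dist x).trans_lt hk
      have h2 : h x = -1 := by
        change 3 * g x - 1 = -1
        rw [hg0 hx]
        simp
      rw [h2, Real.dist_eq, abs_lt] at h1
      change denseSeq C(K, ℝ) k x ≤ 0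
      linarith [h1.1, h1.2]
    · have h1 : dist (h x) (denseSeq C(K, ℝ) k x) < 1 / 2 :=
        (ContinuousMap.dist_apply_le_dist x).trans_lt hk
      have h2 : h x = 2 := by
        change 3 * g x - 1 = 2
        rw [hg1 hx]
        norm_num
      rw [h2, Real.dist_eq, abs_lt] at h1
      change 1 ≤ denseSeq C(K, ℝ) k x
      linarith [h1.1, h1.2]
  · obtain ⟨O, hO1, hO2⟩ := exists_nat_basis K
    exact ⟨O, hO1, hO2⟩

end Pool.Agent.Helper2.BQ
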